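import Mathlib
import Pool.Agent.TH362.TF.Multi
import Pool.Agent.TH362.TF.Contr
import Pool.Agent.TH362.TF.Cyc
import Pool.Agent.V5helper2.FF.Mod

set_option autoImplicit false

/-!
# Two cycles, or the Petersen graph: small or dense dominating sets, modulo chains (MP_e6539c_co)

Two vertices are called close if they are joined by an edge or by two different paths with two edges.
Let `G` be a finite multigraph without isthmuses with a dominating set `D` such that every vertex of
`D` is close to all but at most two of the other vertices of `D`, or more generally a graph which gets
such a set when a chain of circuits or ears with at most four new edges and of doubly connected pieces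
is contracted.  Examples are the graphs with domination number at most three, the graphs with total
domination number at most four, and the graphs with a dominating clique or a dominating circuit of
length five.  Then the edge set is the union of two cycles, or a component of `G` can be contracted to
the Petersen graph (which has domination number three).

Proof.  After the contraction of the chain let `H` be a quotient without nowhere-zero 4-flow and
without Petersen quotient such that all proper quotients of `H` have a flow.  `H` has at least 18
vertices of odd degree, no vertices of degree one or two and no circuits with at most four edges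
(starting library `TH362/TF`, `R890/FF`).  In `H` close vertices are adjacent, so that outside of a
dominating set with three, four or five vertices `H` consists of circuits whose vertices are joined to
the vertices of this set in a periodic order, and a flow exists (starting library `N399/DM`); a
contradiction.
-/

namespace Pool.Agent.Results.MP_e6539c_co.DominatingSet

open Finset Pool.Agent.TH362.Multi

/-- The edges with exactly one end in `X`. -/
def boundary {V E : Type} [DecidableEq V] [Fintype E] (s t : E → V) (X : Finset V) : Finset E :=
  univ.filter (fun e => ¬ (s e ∈ X ↔ t e ∈ X))

/-- The union of the sets `C j` with `j < i`. -/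
def earlier {E : Type} [DecidableEq E] {m : ℕ} (C : Fin m → Finset E) (i : Fin m) : Finset E :=
  (univ.filter (fun j => j < i)).biUnion C

/-- `H` can be added to the chain after `F`: either (short) `H` has at most four edges outside `F`
and no bridge modulo `F`: no set `Y` of vertices without boundary edges in `F` has exactly one
boundary edge in `H`; or (doubly connected) `H` contains two disjoint sets each of which connects,
modulo `F`, whatever `H` connects: every set `Y` of vertices without boundary edges in `F` and with
a boundary edge in `H` has boundary edges in both sets. -/
def Adds {V E : Type} [DecidableEq V] [Fintype E] [DecidableEq E] (s t : E → V)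
    (F H : Finset E) : Prop :=
  ((H \ F).card ≤ 4 ∧ ∀ Y : Finset V, Disjoint (boundary s t Y) F →
    (boundary s t Y ∩ H).card ≠ 1) ∨
  ∃ T₁ T₂ : Finset E, T₁ ⊆ H ∧ T₂ ⊆ H ∧ Disjoint T₁ T₂ ∧ ∀ Y : Finset V,
    Disjoint (boundary s t Y) F → ¬ Disjoint (boundary s t Y) H →
      ¬ Disjoint (boundary s t Y) T₁ ∧ ¬ Disjoint (boundary s t Y) T₂

/-- The vertices of the graph in which the edges of `F` are contracted (the components of `F`). -/
def Contracted {V E : Type} (s t : E → V) (F : Finset E) : Type :=
  Quot (fun x y : V => ∃ e ∈ F, s e = x ∧ t e = y)

/-- The component of `F` which contains `v`. -/
def component {V E : Type} (s t : E → V) (F : Finset E) (v : V) : Contracted s t F := Quot.mk _ v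

/-- The edge `e` joins the vertices `x` and `y`. -/
def Joins {W E : Type} (s t : E → W) (e : E) (x y : W) : Prop :=
  (s e = x ∧ t e = y) ∨ (s e = y ∧ t e = x)

/-- The vertices `x` and `y` are joined by an edge, or by two different paths with two edges (for
example, they have two common neighbours). -/
def Close {W E : Type} (s t : E → W) (x y : W) : Prop :=
  (∃ e, Joins s t e x y) ∨
    ∃ (e f e' f' : E) (a b : W), (e ≠ e' ∨ f ≠ f') ∧ Joins s t e x a ∧ Joins s t f a y ∧
      Joins s t e' x b ∧ Joins s t f' b y

/-- Every vertex outside of `D` which is an end of an edge (not a loop) is close to a vertex of `D`,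
and for every vertex `d` of `D` and any three different vertices of `D` other than `d`, at least one
of the three is close to `d`. -/
def Dominates {W E : Type} (s t : E → W) (D : Set W) : Prop :=
  (∀ x, x ∉ D → (∃ e, s e ≠ t e ∧ (s e = x ∨ t e = x)) → ∃ d ∈ D, Close s t x d) ∧
    ∀ d ∈ D, ∀ c : Fin 3 → W, Function.Injective c → (∀ i, c i ∈ D ∧ c i ≠ d) →
      ∃ i, Close s t d (c i)

/-- For some chain of sets of edges (for instance the empty chain) the graph in which its union is
contracted has a dominating set as above. -/
def HasDominatingSet {V E : Type} [Fintype V] [DecidableEq V] [Fintype E] [DecidableEq E]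
    (s t : E → V) : Prop :=
  ∃ (m : ℕ) (C : Fin m → Finset E), (∀ i, Adds s t (earlier C i) (C i)) ∧
    ∃ D, Dominates (fun e => component s t (univ.biUnion C) (s e))
      (fun e => component s t (univ.biUnion C) (t e)) D

/-- Let `s t : E → V` be a finite multigraph without isthmuses and with a dominating set as above,
possibly after the contraction of a chain.  Then the edge set is the union of two cycles, or some
component can be contracted to the Petersen graph. -/
theorem result (V E : Type) [Fintype V] [DecidableEq V] [Fintype E] [DecidableEq E] (s t : E → V)
    (hb : ∀ e, ¬ Isthmus s t e) (h : HasDominatingSet s t) :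
    (∃ C₁ C₂ : Set E, IsCycle s t C₁ ∧ IsCycle s t C₂ ∧ C₁ ∪ C₂ = Set.univ) ∨
      ContractsToPetersen s t := by
  have h1 := TH362.TF.n1_of s t hb
  obtain ⟨m, C, hC, hO⟩ := h
  have h2 : N410.DC.GCl V5helper2.FF.KD s t := N410.DC.GCl.of_steps hC hO
  rcases h2.flow V5helper2.FF.inh_KD h1 with h3 | h3
  · exact Or.inl (TH362.TF.two_cycles s t h3)
  · exact Or.inr (TH362.TF.contracts s t h1 h3)

end Pool.Agent.Results.MP_e6539c_co.DominatingSet
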