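import Mathlib
import Pool.Agent.TH362.TF.Multi
import Pool.Agent.TH362.TF.Contr
import Pool.Agent.TH362.TF.Cyc
import Pool.Agent.V5helper2.FF.Mod

set_option autoImplicit false

/-!
# Two cycles, or the Petersen graph: matching number at most eight, modulo chains (MP_e6539c_co)

Let `G` be a finite multigraph without isthmuses in which no nine edges are pairwise disjoint, or more
generally a graph which gets this property when a chain of circuits or ears with at most four new
edges and of doubly connected pieces is contracted.  Then the edge set is the union of two cycles, or
a component of `G` can be contracted to the Petersen graph.  (The second alternative cannot occur if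
`G` has no Petersen minor.  The Blanusa snarks have matching number nine.)

Proof.  After the contraction of the chain let `H` be a quotient without nowhere-zero 4-flow and
without Petersen quotient such that all proper quotients of `H` have a flow.  `H` has at least 18
vertices of odd degree, no vertices of degree one or two and no circuits with at most four edges
(starting library `TH362/TF`, `R890/FF`), hence it has nine disjoint edges by the Tutte-Berge formula
and a count of common neighbours (starting library `R769/MN`).  These edges are disjoint in `G`,
modulo the chain; a contradiction.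
-/

namespace Pool.Agent.Results.MP_e6539c_co.MatchingNumberEight

open Finset Pool.Agent.TH362.Multi

/-- The edges with exactly one end in `X`. -/
def boundary {V E : Type} [DecidableEq V] [Fintype E] (s t : E → V) (X : Finset V) : Finset E :=
  univ.filter (fun e => ¬ (s e ∈ X ↔ t e ∈ X))

/-- The union of the sets `C j` with `j < i`. -/
def earlier {E : Type} [DecidableEq E] {m : ℕ} (C : Fin m → Finset E) (i : Fin m) : Finset E :=
  (univ.filter (fun j => j < i)).biUnion C

/-- `H` can be added to the chain after `F`: either (short) `H` has at most four edges outside `F`
and no bridge modulo `F`: no set `Y` of vertices without boundary edges in `F` has exactly one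
boundary edge in `H`; or (doubly connected) `H` contains two disjoint sets each of which connects,
modulo `F`, whatever `H` connects: every set `Y` of vertices without boundary edges in `F` and with
a boundary edge in `H` has boundary edges in both sets. -/
def Adds {V E : Type} [DecidableEq V] [Fintype E] [DecidableEq E] (s t : E → V)
    (F H : Finset E) : Prop :=
  ((H \ F).card ≤ 4 ∧ ∀ Y : Finset V, Disjoint (boundary s t Y) F →
    (boundary s t Y ∩ H).card ≠ 1) ∨
  ∃ T₁ T₂ : Finset E, T₁ ⊆ H ∧ T₂ ⊆ H ∧ Disjoint T₁ T₂ ∧ ∀ Y : Finset V,
    Disjoint (boundary s t Y) F → ¬ Disjoint (boundary s t Y) H →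
      ¬ Disjoint (boundary s t Y) T₁ ∧ ¬ Disjoint (boundary s t Y) T₂

/-- The vertices of the graph in which the edges of `F` are contracted (the components of `F`). -/
def Contracted {V E : Type} (s t : E → V) (F : Finset E) : Type :=
  Quot (fun x y : V => ∃ e ∈ F, s e = x ∧ t e = y)

/-- The component of `F` which contains `v`. -/
def component {V E : Type} (s t : E → V) (F : Finset E) (v : V) : Contracted s t F := Quot.mk _ v

/-- `M` is a matching: its edges are not loops, and no two of them have a common end. -/
def IsMatching {W E : Type} (s t : E → W) (M : Finset E) : Prop :=
  (∀ e ∈ M, s e ≠ t e) ∧ ∀ e ∈ M, ∀ e' ∈ M, e ≠ e' →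
    s e ≠ s e' ∧ s e ≠ t e' ∧ t e ≠ s e' ∧ t e ≠ t e'

/-- For some chain of sets of edges (for instance the empty chain), after the contraction of its
union, every matching has at most eight edges. -/
def SmallMatchings {V E : Type} [Fintype V] [DecidableEq V] [Fintype E] [DecidableEq E]
    (s t : E → V) : Prop :=
  ∃ (m : ℕ) (C : Fin m → Finset E), (∀ i, Adds s t (earlier C i) (C i)) ∧
    ∀ M : Finset E, IsMatching (fun e => component s t (univ.biUnion C) (s e))
      (fun e => component s t (univ.biUnion C) (t e)) M → M.card ≤ 8

/-- Let `s t : E → V` be a finite multigraph without isthmuses and with small matchings.  Then the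
edge set is the union of two cycles, or some component can be contracted to the Petersen graph. -/
theorem result (V E : Type) [Fintype V] [DecidableEq V] [Fintype E] [DecidableEq E] (s t : E → V)
    (hb : ∀ e, ¬ Isthmus s t e) (h : SmallMatchings s t) :
    (∃ C₁ C₂ : Set E, IsCycle s t C₁ ∧ IsCycle s t C₂ ∧ C₁ ∪ C₂ = Set.univ) ∨
      ContractsToPetersen s t := by
  have h1 := TH362.TF.n1_of s t hb
  obtain ⟨m, C, hC, hO⟩ := h
  have h2 : N410.DC.GCl V5helper2.FF.KM s t := N410.DC.GCl.of_steps hC hO
  rcases h2.flow V5helper2.FF.inh_KM h1 with h3 | h3
  · exact Or.inl (TH362.TF.two_cycles s t h3)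
  · exact Or.inr (TH362.TF.contracts s t h1 h3)

end Pool.Agent.Results.MP_e6539c_co.MatchingNumberEight
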