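import Mathlib
import Pool.Agent.V5helper70.FF.Chn

set_option autoImplicit false

/-!
# Two cycles: tree decompositions with bags of two kinds, modulo chains (MP_e6539c_co)

Let `G` be a finite multigraph without isthmuses.  Call a set of vertices free if it does not contain
all vertices of a circuit with two, three or four edges.  Suppose that after the contraction of a
chain (circuits or ears with at most four new edges and doubly connected pieces; possibly the empty
chain) the graph has no Petersen graph minor and has a tree decomposition such that every bag `B`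

* has no free subset with six elements (with no condition on the adhesion sets), or
* its intersections with the neighbouring bags are contained in sets `Z 1, ..., Z s` all of whose free
  subsets have at most `z i ≤ 4` elements, while the free subsets of `B` have at most `k` elements,
  where `k + ∑ max (z i - 2, 0) ≤ 17`.

Then the edge set of `G` is the union of two cycles.

Special cases (empty chain, `G` without Petersen minor): all bags of the first kind: treewidth at most
four, tree-independence number at most two (for instance chordal graphs), bags which are covered by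
`a` cliques and `b` further vertices with `2 a + b ≤ 5`; all bags of the second kind: clique sums
(without deletion of edges) of graphs with at most 17 vertices.  New are the mixtures of the two kinds
of bags, and the chains.

Proof.  The class of the graphs with such a tree decomposition is closed under contractions.  A graph
of the class without nowhere-zero 4-flow and Petersen minor all of whose proper contractions have a
flow has no circuits with at most four edges (Kempe chains, starting library `R129/Four`), so all
sets are free: the bags have at most five vertices, or they satisfy the condition of the theorem on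
adhesion four (starting library `N399/TB/Adh`).  Root the decomposition and merge every node with its
parent as long as they have the same bag (`V5helper70/FF/Mrg`): then two adjacent bags with at most
five vertices have at most four vertices in common, and the theorem on adhesion four applies with all
subsets with four elements of the small bags.  The flow of the contraction extends to `G`
(`R926/SC/Mixed`).
-/

namespace Pool.Agent.Results.MP_e6539c_co.MixedBags

open Finset

/-- the simple graph in which two distinct vertices are adjacent if an edge in `F` joins them -/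
def under {W E : Type} (s t : E → W) (F : Set E) : SimpleGraph W where
  Adj x y := x ≠ y ∧ ∃ e ∈ F, (s e = x ∧ t e = y) ∨ (s e = y ∧ t e = x)
  symm := ⟨fun _ _ h => ⟨h.1.symm, h.2.imp fun _ he => ⟨he.1, he.2.symm⟩⟩⟩
  loopless := ⟨fun _ h => h.1 rfl⟩

/-- the edge `e` is an isthmus: its ends are not connected by the other edges -/
def IsIsthmus {W E : Type} (s t : E → W) (e : E) : Prop :=
  ¬ (under s t {e' | e' ≠ e}).Reachable (s e) (t e)

/-- the Petersen graph is a minor: there are disjoint connected sets of vertices, one for each
two-element subset of `{0, 1, 2, 3, 4}`, and the sets for disjoint subsets are adjacent -/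
def HasPetersenMinor {W E : Type} (s t : E → W) : Prop :=
  ∃ B : {p : Finset (Fin 5) // p.card = 2} → Set W,
    (∀ i, ((under s t Set.univ).induce (B i)).Connected) ∧
    (∀ i j, i ≠ j → Disjoint (B i) (B j)) ∧
    (∀ i j : {p : Finset (Fin 5) // p.card = 2}, Disjoint i.1 j.1 →
      ∃ x ∈ B i, ∃ y ∈ B j, (under s t Set.univ).Adj x y)

/-- tree decomposition of the graph, with bags `bag i` for the nodes `i` of the tree `T` -/
def IsTreeDecomposition {W E ι : Type} (s t : E → W) (T : SimpleGraph ι) (bag : ι → Set W) : Prop :=
  T.IsTree ∧ (∀ v, ∃ i, v ∈ bag i) ∧ (∀ e, ∃ i, s e ∈ bag i ∧ t e ∈ bag i) ∧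
    ∀ (i j : ι) (p : T.Walk i j), p.IsPath → ∀ k ∈ p.support, bag i ∩ bag j ⊆ bag k

/-- the edge `e` joins `x` and `y` -/
def Joins {W E : Type} (s t : E → W) (e : E) (x y : W) : Prop :=
  (s e = x ∧ t e = y) ∨ (s e = y ∧ t e = x)

/-- all vertices of some circuit with `k + 2 = 2, 3` or `4` edges are in `S`: the vertices `v i` are
distinct, the edges `e i` are distinct, and `e i` joins `v i` and `v (i + 1)` (modulo `k + 2`) -/
def HasShortCircuit {W E : Type} (s t : E → W) (S : Set W) : Prop :=
  ∃ k, k ≤ 2 ∧ ∃ (v : Fin (k + 2) → W) (e : Fin (k + 2) → E), Function.Injective v ∧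
    Function.Injective e ∧ ∀ i, v i ∈ S ∧ Joins s t (e i) (v i) (v (i + 1))

/-- every subset of `B` without a short circuit has at most `k` elements -/
def FreeLE {W E : Type} (s t : E → W) (k : ℕ) (B : Set W) : Prop :=
  ∀ S : Finset W, (S : Set W) ⊆ B → ¬ HasShortCircuit s t S → S.card ≤ k

/-- The condition on the bag of the node `b`: its free subsets have at most five elements, or the
intersections with the bags of the neighbouring nodes are contained in sets `Z 0, ..., Z (r - 1)`
whose free subsets have at most `z i ≤ 4` elements, the free subsets of the bag have at most `k`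
elements, and `k + ∑ max (z i - 2, 0) ≤ 17` (truncated subtraction). -/
def CrowdedBag {W E ι : Type} (s t : E → W) (T : SimpleGraph ι) (bag : ι → Set W) (b : ι) : Prop :=
  FreeLE s t 5 (bag b) ∨ ∃ (r k : ℕ) (Z : Fin r → Set W) (z : Fin r → ℕ),
    (∀ i, z i ≤ 4 ∧ FreeLE s t (z i) (Z i)) ∧ (∀ w, T.Adj b w → ∃ i, bag b ∩ bag w ⊆ Z i) ∧
      FreeLE s t k (bag b) ∧ k + ∑ i, (z i - 2) ≤ 17

/-- There is a tree decomposition all of whose bags satisfy the condition above. -/
def HasCrowdedTree {W E : Type} (s t : E → W) : Prop :=
  ∃ (ι : Type) (_ : Fintype ι) (T : SimpleGraph ι) (bag : ι → Set W),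
    IsTreeDecomposition s t T bag ∧ ∀ b, CrowdedBag s t T bag b

/-- The edges with exactly one end in `X`. -/
def boundary {V E : Type} [DecidableEq V] [Fintype E] (s t : E → V) (X : Finset V) : Finset E :=
  univ.filter (fun e => ¬ (s e ∈ X ↔ t e ∈ X))

/-- The union of the sets `C j` with `j < i`. -/
def earlier {E : Type} [DecidableEq E] {m : ℕ} (C : Fin m → Finset E) (i : Fin m) : Finset E :=
  (univ.filter (fun j => j < i)).biUnion C

/-- `H` can be added to the chain after `F`: either (short) `H` has at most four edges outside `F`
and no bridge modulo `F`: no set `Y` of vertices without boundary edges in `F` has exactly one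
boundary edge in `H`; or (doubly connected) `H` contains two disjoint sets each of which connects,
modulo `F`, whatever `H` connects: every set `Y` of vertices without boundary edges in `F` and with
a boundary edge in `H` has boundary edges in both sets. -/
def Adds {V E : Type} [DecidableEq V] [Fintype E] [DecidableEq E] (s t : E → V)
    (F H : Finset E) : Prop :=
  ((H \ F).card ≤ 4 ∧ ∀ Y : Finset V, Disjoint (boundary s t Y) F →
    (boundary s t Y ∩ H).card ≠ 1) ∨
  ∃ T₁ T₂ : Finset E, T₁ ⊆ H ∧ T₂ ⊆ H ∧ Disjoint T₁ T₂ ∧ ∀ Y : Finset V,
    Disjoint (boundary s t Y) F → ¬ Disjoint (boundary s t Y) H →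
      ¬ Disjoint (boundary s t Y) T₁ ∧ ¬ Disjoint (boundary s t Y) T₂

/-- The vertices of the graph `G / F` in which the edges of `F` are contracted: the components of
`F`. (The edges in `F` become loops.) -/
def Contracted {V E : Type} (s t : E → V) (F : Finset E) : Type :=
  Quot (fun x y : V => ∃ e ∈ F, s e = x ∧ t e = y)

/-- The component of `F` which contains `v`. -/
def component {V E : Type} (s t : E → V) (F : Finset E) (v : V) : Contracted s t F := Quot.mk _ v

/-- The set of edges `C` is a cycle: all degrees are even, where a loop counts twice. -/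
def IsCycle {V E : Type} [DecidableEq V] (s t : E → V) (C : Finset E) : Prop :=
  ∀ v, Even (∑ e ∈ C, ((if s e = v then 1 else 0) + (if t e = v then 1 else 0)))

/-- **Theorem.** Let `s t : E → V` be a finite multigraph `G` without isthmuses and `C` a chain of
sets of edges, with the union `F`. If `G / F` has no Petersen minor and has a tree decomposition as
above, then `G` is the union of two cycles. -/
theorem result (V E : Type) [Fintype V] [DecidableEq V] [Fintype E] [DecidableEq E] (s t : E → V)
    (hI : ∀ e, ¬ IsIsthmus s t e) (m : ℕ) (C : Fin m → Finset E)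
    (hC : ∀ i, Adds s t (earlier C i) (C i)) (F : Finset E) (hF : F = univ.biUnion C)
    (hP : ¬ HasPetersenMinor (fun e => component s t F (s e)) (fun e => component s t F (t e)))
    (hT : HasCrowdedTree (fun e => component s t F (s e)) (fun e => component s t F (t e))) :
    ∃ C₁ C₂ : Finset E, IsCycle s t C₁ ∧ IsCycle s t C₂ ∧ C₁ ∪ C₂ = univ := by
  classical
  subst hF
  refine V5helper70.FF.two_of_chain (s := s) (t := t) hI hC ?_
  intro ρ hρ hcut
  obtain ⟨ι, hι, T, bag, ⟨t1, -, t2, t3⟩, t4⟩ := hT
  have hmem : ∀ (A : Set (Contracted s t (univ.biUnion C))) (v : V),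
      v ∈ (ρ '' A).toFinset ↔ ∃ w ∈ A, ρ w = v := by
    intro A v
    rw [Set.mem_toFinset]
    rfl
  refine V5helper70.FF.nz_of_HasMB ⟨ι, hι, T, fun i => (ρ '' bag i).toFinset, t1, ?_, ?_, ?_⟩
    (fun h => hP (V5helper70.FF.minor_of_pm (s := fun e => component s t (univ.biUnion C) (s e))
      (t := fun e => component s t (univ.biUnion C) (t e)) hρ h)) hcut
  · intro e
    obtain ⟨i, hi1, hi2⟩ := t2 e
    exact ⟨i, (hmem _ _).2 ⟨_, hi1, rfl⟩, (hmem _ _).2 ⟨_, hi2, rfl⟩⟩
  · intro i j p hp k hk v hi hj
    obtain ⟨w, hw, rfl⟩ := (hmem _ _).1 hi
    obtain ⟨w', hw', h5⟩ := (hmem _ _).1 hj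
    rw [hρ h5] at hw'
    exact (hmem _ _).2 ⟨w, t3 i j p hp k hk ⟨hw, hw'⟩, rfl⟩
  · intro b
    have key : ∀ (k : ℕ) (A : Set (Contracted s t (univ.biUnion C))),
        FreeLE (fun e => component s t (univ.biUnion C) (s e))
          (fun e => component s t (univ.biUnion C) (t e)) k A →
        V5helper2.FF.SpK (fun e => ρ (Quot.mk _ (s e))) (fun e => ρ (Quot.mk _ (t e))) k
          (ρ '' A).toFinset := by
      intro k A hA
      exact V5helper70.FF.FreeLE.push (s := fun e => component s t (univ.biUnion C) (s e))
        (t := fun e => component s t (univ.biUnion C) (t e)) hρ hA (fun v hv => (hmem _ _).1 hv)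
    rcases t4 b with h5 | ⟨r, k, Z, z, z1, z2, z3, z4⟩
    · exact Or.inl (key 5 _ h5)
    · refine Or.inr ⟨r, k, fun i => (ρ '' Z i).toFinset, z,
        fun i => ⟨(z1 i).1, key _ _ (z1 i).2⟩, ?_, key _ _ z3, z4⟩
      intro w hw
      obtain ⟨i, hi⟩ := z2 w hw
      refine ⟨i, fun v hv => ?_⟩
      rw [mem_inter] at hv
      obtain ⟨x, hx, rfl⟩ := (hmem _ _).1 hv.1
      obtain ⟨y, hy, h5⟩ := (hmem _ _).1 hv.2
      rw [hρ h5] at hy
      exact (hmem _ _).2 ⟨x, hi ⟨hx, hy⟩, rfl⟩

end Pool.Agent.Results.MP_e6539c_co.MixedBags
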