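import Mathlib
import Pool.Agent.V5helper70.FF.Pb

set_option autoImplicit false

/-!
# Two cycles: path decompositions with bags without large free sets, modulo chains (MP_e6539c_co)

Let `G` be a finite multigraph without isthmuses.  Call a set of vertices free if it does not contain
all vertices of a circuit with two, three or four edges.  Suppose that after the contraction of a
chain (circuits or ears with at most four new edges and doubly connected pieces; possibly the empty
chain) the graph has no Petersen graph minor and has a path decomposition such that no bag has a free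
subset with seven elements.  Then the edge set of `G` is the union of two cycles.

Special cases (empty chain, `G` without Petersen minor): pathwidth at most five (starting result
PathwidthFive of MP_e6539c_co); path decompositions in which every bag is covered by `a` cliques and
`b` further vertices with `2 a + b ≤ 6`, for instance by three cliques.  The bags are measured by
their free subsets only.

Proof.  The class of the graphs with such a path decomposition is closed under contractions: a free
subset of the image of a set is the image of a free subset with the same number of elements.  A graph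
of the class without nowhere-zero 4-flow and Petersen minor all of whose proper contractions have a
flow has no circuits with at most four edges (Kempe chains, starting library `R129/Four`), so all sets
are free and the pathwidth is at most five; this is excluded by the starting theorem on pathwidth five
(`TH395/P5`).  The flow of the contraction extends to `G` (`R926/SC/Mixed`).
-/

namespace Pool.Agent.Results.MP_e6539c_co.PathBags

open Finset

/-- the simple graph in which two distinct vertices are adjacent if an edge in `F` joins them -/
def under {W E : Type} (s t : E → W) (F : Set E) : SimpleGraph W where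
  Adj x y := x ≠ y ∧ ∃ e ∈ F, (s e = x ∧ t e = y) ∨ (s e = y ∧ t e = x)
  symm := ⟨fun _ _ h => ⟨h.1.symm, h.2.imp fun _ he => ⟨he.1, he.2.symm⟩⟩⟩
  loopless := ⟨fun _ h => h.1 rfl⟩

/-- the edge `e` is an isthmus: its ends are not connected by the other edges -/
def IsIsthmus {W E : Type} (s t : E → W) (e : E) : Prop :=
  ¬ (under s t {e' | e' ≠ e}).Reachable (s e) (t e)

/-- the Petersen graph is a minor: there are disjoint connected sets of vertices, one for each
two-element subset of `{0, 1, 2, 3, 4}`, and the sets for disjoint subsets are adjacent -/
def HasPetersenMinor {W E : Type} (s t : E → W) : Prop :=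
  ∃ B : {p : Finset (Fin 5) // p.card = 2} → Set W,
    (∀ i, ((under s t Set.univ).induce (B i)).Connected) ∧
    (∀ i j, i ≠ j → Disjoint (B i) (B j)) ∧
    (∀ i j : {p : Finset (Fin 5) // p.card = 2}, Disjoint i.1 j.1 →
      ∃ x ∈ B i, ∃ y ∈ B j, (under s t Set.univ).Adj x y)

/-- path decomposition of the graph, with the bags `X 0, X 1, ...`: every edge has both ends in one
of the bags, and every vertex lies in an interval of the bags -/
def IsPathDecomposition {W E : Type} (s t : E → W) (X : ℕ → Set W) : Prop :=
  (∀ e, ∃ i, s e ∈ X i ∧ t e ∈ X i) ∧ ∀ i j k, i ≤ j → j ≤ k → X i ∩ X k ⊆ X j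

/-- the edge `e` joins `x` and `y` -/
def Joins {W E : Type} (s t : E → W) (e : E) (x y : W) : Prop :=
  (s e = x ∧ t e = y) ∨ (s e = y ∧ t e = x)

/-- all vertices of some circuit with `k + 2 = 2, 3` or `4` edges are in `S`: the vertices `v i` are
distinct, the edges `e i` are distinct, and `e i` joins `v i` and `v (i + 1)` (modulo `k + 2`) -/
def HasShortCircuit {W E : Type} (s t : E → W) (S : Set W) : Prop :=
  ∃ k, k ≤ 2 ∧ ∃ (v : Fin (k + 2) → W) (e : Fin (k + 2) → E), Function.Injective v ∧
    Function.Injective e ∧ ∀ i, v i ∈ S ∧ Joins s t (e i) (v i) (v (i + 1))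

/-- every subset of `B` without a short circuit has at most `k` elements -/
def FreeLE {W E : Type} (s t : E → W) (k : ℕ) (B : Set W) : Prop :=
  ∀ S : Finset W, (S : Set W) ⊆ B → ¬ HasShortCircuit s t S → S.card ≤ k

/-- There is a path decomposition in which the free subsets of the bags have at most six elements. -/
def HasCrowdedPath {W E : Type} (s t : E → W) : Prop :=
  ∃ X : ℕ → Set W, IsPathDecomposition s t X ∧ ∀ i, FreeLE s t 6 (X i)

/-- The edges with exactly one end in `X`. -/
def boundary {V E : Type} [DecidableEq V] [Fintype E] (s t : E → V) (X : Finset V) : Finset E :=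
  univ.filter (fun e => ¬ (s e ∈ X ↔ t e ∈ X))

/-- The union of the sets `C j` with `j < i`. -/
def earlier {E : Type} [DecidableEq E] {m : ℕ} (C : Fin m → Finset E) (i : Fin m) : Finset E :=
  (univ.filter (fun j => j < i)).biUnion C

/-- `H` can be added to the chain after `F`: either (short) `H` has at most four edges outside `F`
and no bridge modulo `F`: no set `Y` of vertices without boundary edges in `F` has exactly one
boundary edge in `H`; or (doubly connected) `H` contains two disjoint sets each of which connects,
modulo `F`, whatever `H` connects: every set `Y` of vertices without boundary edges in `F` and with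
a boundary edge in `H` has boundary edges in both sets. -/
def Adds {V E : Type} [DecidableEq V] [Fintype E] [DecidableEq E] (s t : E → V)
    (F H : Finset E) : Prop :=
  ((H \ F).card ≤ 4 ∧ ∀ Y : Finset V, Disjoint (boundary s t Y) F →
    (boundary s t Y ∩ H).card ≠ 1) ∨
  ∃ T₁ T₂ : Finset E, T₁ ⊆ H ∧ T₂ ⊆ H ∧ Disjoint T₁ T₂ ∧ ∀ Y : Finset V,
    Disjoint (boundary s t Y) F → ¬ Disjoint (boundary s t Y) H →
      ¬ Disjoint (boundary s t Y) T₁ ∧ ¬ Disjoint (boundary s t Y) T₂

/-- The vertices of the graph `G / F` in which the edges of `F` are contracted: the components of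
`F`. (The edges in `F` become loops.) -/
def Contracted {V E : Type} (s t : E → V) (F : Finset E) : Type :=
  Quot (fun x y : V => ∃ e ∈ F, s e = x ∧ t e = y)

/-- The component of `F` which contains `v`. -/
def component {V E : Type} (s t : E → V) (F : Finset E) (v : V) : Contracted s t F := Quot.mk _ v

/-- The set of edges `C` is a cycle: all degrees are even, where a loop counts twice. -/
def IsCycle {V E : Type} [DecidableEq V] (s t : E → V) (C : Finset E) : Prop :=
  ∀ v, Even (∑ e ∈ C, ((if s e = v then 1 else 0) + (if t e = v then 1 else 0)))

/-- **Theorem.** Let `s t : E → V` be a finite multigraph `G` without isthmuses and `C` a chain of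
sets of edges, with the union `F`. If `G / F` has no Petersen minor and has a path decomposition as
above, then `G` is the union of two cycles. -/
theorem result (V E : Type) [Fintype V] [DecidableEq V] [Fintype E] [DecidableEq E] (s t : E → V)
    (hI : ∀ e, ¬ IsIsthmus s t e) (m : ℕ) (C : Fin m → Finset E)
    (hC : ∀ i, Adds s t (earlier C i) (C i)) (F : Finset E) (hF : F = univ.biUnion C)
    (hP : ¬ HasPetersenMinor (fun e => component s t F (s e)) (fun e => component s t F (t e)))
    (hT : HasCrowdedPath (fun e => component s t F (s e)) (fun e => component s t F (t e))) :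
    ∃ C₁ C₂ : Finset E, IsCycle s t C₁ ∧ IsCycle s t C₂ ∧ C₁ ∪ C₂ = univ := by
  classical
  subst hF
  refine V5helper70.FF.two_of_chain (s := s) (t := t) hI hC ?_
  intro ρ hρ hcut
  obtain ⟨X, ⟨t2, t3⟩, t4⟩ := hT
  have hmem : ∀ (A : Set (Contracted s t (univ.biUnion C))) (v : V),
      v ∈ (ρ '' A).toFinset ↔ ∃ w ∈ A, ρ w = v := by
    intro A v
    rw [Set.mem_toFinset]
    rfl
  refine V5helper70.FF.nz_of_HasPB ⟨fun i => (ρ '' X i).toFinset, ?_, ?_, ?_⟩
    (fun h => hP (V5helper70.FF.minor_of_pm (s := fun e => component s t (univ.biUnion C) (s e))
      (t := fun e => component s t (univ.biUnion C) (t e)) hρ h)) hcut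
  · intro e
    obtain ⟨i, hi1, hi2⟩ := t2 e
    exact ⟨i, (hmem _ _).2 ⟨_, hi1, rfl⟩, (hmem _ _).2 ⟨_, hi2, rfl⟩⟩
  · intro i j k hij hjk v hv
    rw [mem_inter] at hv
    obtain ⟨w, hw, rfl⟩ := (hmem _ _).1 hv.1
    obtain ⟨w', hw', h5⟩ := (hmem _ _).1 hv.2
    rw [hρ h5] at hw'
    exact (hmem _ _).2 ⟨w, t3 i j k hij hjk ⟨hw, hw'⟩, rfl⟩
  · intro i
    exact V5helper70.FF.FreeLE.push (s := fun e => component s t (univ.biUnion C) (s e))
      (t := fun e => component s t (univ.biUnion C) (t e)) hρ (t4 i)
      (fun v hv => (hmem _ _).1 hv)

end Pool.Agent.Results.MP_e6539c_co.PathBags
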